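import Pool.Agent.Helper12.TS.St

/-!
# Project TS, module K5F: the structure of a model which needs all three edges of a triangle
-/

set_option autoImplicit false

namespace Pool.Agent.Helper79.TS

open Pool.Agent.Helper51.AJ (IsMinor Planar Apex ExMinor Con Tch)
open Pool.Agent.Helper12.NK (rst Kc add)
open Pool.Agent.Helper12.TS

variable {V : Type}

/-- connectivity when edges are replaced by connections -/
private theorem con_repl {H P : SimpleGraph V} {W : Set V} (h : Con H W)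
    (hr : ∀ a (ha : a ∈ W) b (hb : b ∈ W), H.Adj a b → (P.induce W).Reachable ⟨a, ha⟩ ⟨b, hb⟩) :
    Con P W := by
  unfold Pool.Agent.Helper51.AJ.Con at *
  have := h.nonempty
  refine ⟨fun x y => ?_⟩
  obtain ⟨w⟩ := h.preconnected x y
  induction w with
  | nil => exact SimpleGraph.Reachable.refl _
  | cons hadj _ ih => exact (hr _ _ _ _ hadj).trans ih

private theorem md_star {ι : Type} {Γ : SimpleGraph ι} {B : SimpleGraph V} {S : Set V}
    {φ : ι → Set V} {s t u : V} (hS : S = {s, t, u}) (hst : s ≠ t) (hsu : s ≠ u)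
    (hM : Md Γ (B ⊔ cl S) φ) (h1 : ∀ w, t ∈ φ w → u ∈ φ w → s ∈ φ w)
    (h2 : ∀ w w', Γ.Adj w w' → t ∈ φ w → u ∈ φ w' → s ∈ φ w ∨ s ∈ φ w') :
    Md Γ (B ⊔ str s S) φ := by
  obtain ⟨hc, hd, ht⟩ := hM
  have hsS : s ∈ S := by rw [hS]; simp
  have htS : t ∈ S := by rw [hS]; simp
  have huS : u ∈ S := by rw [hS]; simp
  have key : ∀ a b, (B ⊔ cl S).Adj a b → (B ⊔ str s S).Adj a b ∨ (a = t ∧ b = u) ∨ (a = u ∧ b = t) := by
    intro a b h
    rcases h with h | h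
    · exact Or.inl (Or.inl h)
    · obtain ⟨h0, ha, hb⟩ := h
      have h0' : a ≠ b := h0
      by_cases e1 : a = s
      · exact Or.inl (Or.inr ⟨h0', Or.inl ⟨e1, hb⟩⟩)
      by_cases e2 : b = s
      · exact Or.inl (Or.inr ⟨h0', Or.inr ⟨e2, ha⟩⟩)
      right
      rw [hS] at ha hb
      simp only [Set.mem_insert_iff, Set.mem_singleton_iff] at ha hb
      rcases ha with ha | ha | ha <;> rcases hb with hb | hb | hb <;> simp_all
  have st1 : (B ⊔ str s S).Adj s t := Or.inr ⟨hst, Or.inl ⟨rfl, htS⟩⟩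
  have su1 : (B ⊔ str s S).Adj s u := Or.inr ⟨hsu, Or.inl ⟨rfl, huS⟩⟩
  refine ⟨fun w => con_repl (hc w) fun a ha b hb h => ?_, hd, fun w w' hw => ?_⟩
  · rcases key a b h with h | ⟨rfl, rfl⟩ | ⟨rfl, rfl⟩
    · exact SimpleGraph.Adj.reachable (by exact h)
    · have hs := h1 w ha hb
      have e1 : ((B ⊔ str s S).induce (φ w)).Adj ⟨a, ha⟩ ⟨s, hs⟩ := st1.symm
      have e2 : ((B ⊔ str s S).induce (φ w)).Adj ⟨s, hs⟩ ⟨b, hb⟩ := su1
      exact e1.reachable.trans e2.reachable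
    · have hs := h1 w hb ha
      have e1 : ((B ⊔ str s S).induce (φ w)).Adj ⟨a, ha⟩ ⟨s, hs⟩ := su1.symm
      have e2 : ((B ⊔ str s S).induce (φ w)).Adj ⟨s, hs⟩ ⟨b, hb⟩ := st1
      exact e1.reachable.trans e2.reachable
  · obtain ⟨a, ha, b, hb, h⟩ := ht w w' hw
    rcases key a b h with h | ⟨rfl, rfl⟩ | ⟨rfl, rfl⟩
    · exact ⟨a, ha, b, hb, h⟩
    · rcases h2 w w' hw ha hb with hs | hs
      · exact ⟨s, hs, b, hb, su1⟩
      · exact ⟨a, ha, s, hs, st1.symm⟩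
    · rcases h2 w' w hw.symm hb ha with hs | hs
      · exact ⟨a, ha, s, hs, su1.symm⟩
      · exact ⟨s, hs, b, hb, st1⟩

private theorem three {ι : Type} {Γ : SimpleGraph ι} {φ : ι → Set V}
    (hd : ∀ w w', w ≠ w' → Disjoint (φ w) (φ w')) {s t u : V}
    (hs : (∃ w, t ∈ φ w ∧ u ∈ φ w ∧ s ∉ φ w) ∨
      ∃ w w', Γ.Adj w w' ∧ t ∈ φ w ∧ u ∈ φ w' ∧ s ∉ φ w ∧ s ∉ φ w')
    (ht : (∃ w, s ∈ φ w ∧ u ∈ φ w ∧ t ∉ φ w) ∨
      ∃ w w', Γ.Adj w w' ∧ s ∈ φ w ∧ u ∈ φ w' ∧ t ∉ φ w ∧ t ∉ φ w')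
    (hu : (∃ w, s ∈ φ w ∧ t ∈ φ w ∧ u ∉ φ w) ∨
      ∃ w w', Γ.Adj w w' ∧ s ∈ φ w ∧ t ∈ φ w' ∧ u ∉ φ w ∧ u ∉ φ w') :
    ∃ w0 w1 w2, s ∈ φ w0 ∧ t ∈ φ w1 ∧ u ∈ φ w2 ∧ Γ.Adj w0 w1 ∧ Γ.Adj w0 w2 ∧ Γ.Adj w1 w2 := by
  have un : ∀ {x : V} {w w' : ι}, x ∈ φ w → x ∈ φ w' → w = w' := by
    intro x w w' h h'
    by_contra hne
    exact Set.disjoint_left.1 (hd w w' hne) h h'
  rcases hs with ⟨a, a1, a2, a3⟩ | ⟨a, a', a0, a1, a2, a3, a4⟩
  · rcases ht with ⟨b, b1, b2, b3⟩ | ⟨b, b', b0, b1, b2, b3, b4⟩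
    · exact absurd (by rw [un a2 b2]; exact b1) a3
    · exact absurd (by rw [un b2 a2]; exact a1) b4
  · rcases ht with ⟨b, b1, b2, b3⟩ | ⟨b, b', b0, b1, b2, b3, b4⟩
    · exact absurd (by rw [un a2 b2]; exact b1) a4
    · rcases hu with ⟨c, c1, c2, c3⟩ | ⟨c, c', c0, c1, c2, c3, c4⟩
      · exact absurd (by rw [un b1 c1]; exact c2) b3
      · have e1 := un b2 a2
        have e2 := un c1 b1
        have e3 := un c2 a1
        subst e1 e2 e3
        exact ⟨_, _, _, c1, c2, b2, c0, b0, a0⟩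

/-- in a model of `K₅` every element of a branch set has a neighbour -/
private theorem nb {H : SimpleGraph V} {φ : Fin 5 → Set V} (hM : Md K5 H φ) (w : Fin 5) {a : V}
    (ha : a ∈ φ w) : ∃ b, H.Adj a b := by
  obtain ⟨hc, hd, ht⟩ := hM
  by_contra hno
  push Not at hno
  have h1 : ∀ b ∈ φ w, b = a := by
    intro b hb
    obtain ⟨p⟩ := (hc w).preconnected ⟨a, ha⟩ ⟨b, hb⟩
    cases p with
    | nil => rfl
    | cons hadj _ => exact absurd hadj (hno _)
  obtain ⟨w', hw'⟩ : ∃ w' : Fin 5, w ≠ w' := by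
    clear h1 ha
    revert w
    decide
  obtain ⟨x, hx, y, hy, hxy⟩ := ht w w' hw'
  rw [h1 x hx] at hxy
  exact hno y hxy

theorem hK5F (hP : StPTN) : StK5F := by
  classical
  obtain ⟨-, -, hn5, hn33, hmod, hnp, -, -, -, -⟩ := hP
  intro V _ G S X hS3 hXS hN hpl
  obtain ⟨s, t, u, hst, hsu, htu, hS⟩ := Set.ncard_eq_three.1 hS3
  have hsS : s ∈ S := by rw [hS]; simp
  have htS : t ∈ S := by rw [hS]; simp
  have huS : u ∈ S := by rw [hS]; simp
  have tri : ∀ (ι : Type) (Γ : SimpleGraph ι) (φ : ι → Set V), ¬ Planar Γ →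
      Md Γ (rst G (X ∪ S) ⊔ cl S) φ →
      ∃ w0 w1 w2, s ∈ φ w0 ∧ t ∈ φ w1 ∧ u ∈ φ w2 ∧ Γ.Adj w0 w1 ∧ Γ.Adj w0 w2 ∧ Γ.Adj w1 w2 := by
    intro ι Γ φ hΓ hM
    have key : ∀ a b c : V, S = {a, b, c} → a ≠ b → a ≠ c → a ∈ S →
        (∃ w, b ∈ φ w ∧ c ∈ φ w ∧ a ∉ φ w) ∨
          ∃ w w', Γ.Adj w w' ∧ b ∈ φ w ∧ c ∈ φ w' ∧ a ∉ φ w ∧ a ∉ φ w' := by
      intro a b c h1 h2 h3 h4
      by_contra hno
      push Not at hno
      refine hnp ι V Γ _ φ (md_star h1 h2 h3 hM hno.1 ?_) hΓ (hpl a h4)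
      intro w w' hw hb hc
      by_cases h5 : a ∈ φ w
      · exact Or.inl h5
      · exact Or.inr (hno.2 w w' hw hb hc h5)
    refine three hM.2.1 (key s t u hS hst hsu hsS) (key t s u ?_ hst.symm htu htS)
      (key u s t ?_ hsu.symm htu.symm huS)
    · rw [hS, Set.insert_comm]
    · rw [hS]
      ext x
      simp only [Set.mem_insert_iff, Set.mem_singleton_iff]
      tauto
  rcases hmod V _ hN with ⟨φ, hM⟩ | ⟨φ, hM⟩
  · obtain ⟨w0, w1, w2, h0, h1, h2, a01, a02, a12⟩ := tri _ _ φ hn5 hM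
    have a01' : w0 ≠ w1 := a01
    have a02' : w0 ≠ w2 := a02
    have a12' : w1 ≠ w2 := a12
    obtain ⟨w3, w4, h34, h30, h31, h32, h40, h41, h42⟩ : ∃ w3 w4 : Fin 5, w3 ≠ w4 ∧ w3 ≠ w0 ∧
        w3 ≠ w1 ∧ w3 ≠ w2 ∧ w4 ≠ w0 ∧ w4 ≠ w1 ∧ w4 ≠ w2 := by
      clear h0 h1 h2 a01 a02 a12
      revert w0 w1 w2
      decide
    have hd := hM.2.1
    have un : ∀ {x : V} {w w' : Fin 5}, x ∈ φ w → x ∈ φ w' → w = w' := by
      intro x w w' h h'
      by_contra hne
      exact Set.disjoint_left.1 (hd w w' hne) h h'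
    have hin : ∀ w, φ w ⊆ X ∪ S := by
      intro w a ha
      obtain ⟨b, hb⟩ := nb hM w ha
      rcases hb with hb | hb
      · exact hb.2.1
      · exact Or.inr hb.2.1
    -- at most one element of `S` in every branch set
    have one : ∀ w, ∀ a ∈ φ w, ∀ b ∈ φ w, a ∈ S → b ∈ S → a = b := by
      intro w a ha b hb haS hbS
      rw [hS] at haS hbS
      simp only [Set.mem_insert_iff, Set.mem_singleton_iff] at haS hbS
      rcases haS with rfl | rfl | rfl <;> rcases hbS with rfl | rfl | rfl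
      · rfl
      · exact absurd ((un h0 ha).trans (un hb h1)) a01'
      · exact absurd ((un h0 ha).trans (un hb h2)) a02'
      · exact absurd ((un h0 hb).trans (un ha h1)) a01'
      · rfl
      · exact absurd ((un h1 ha).trans (un hb h2)) a12'
      · exact absurd ((un h0 hb).trans (un ha h2)) a02'
      · exact absurd ((un h1 hb).trans (un ha h2)) a12'
      · rfl
    have noS : ∀ w, w ≠ w0 → w ≠ w1 → w ≠ w2 → φ w ⊆ X := by
      intro w e0 e1 e2 a ha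
      rcases hin w ha with h | h
      · exact h
      · rw [hS] at h
        simp only [Set.mem_insert_iff, Set.mem_singleton_iff] at h
        rcases h with rfl | rfl | rfl
        · exact absurd (un ha h0) e0
        · exact absurd (un ha h1) e1
        · exact absurd (un ha h2) e2
    have conG : ∀ w, Con G (φ w) := by
      intro w
      refine con_repl (hM.1 w) fun a ha b hb h => ?_
      refine SimpleGraph.Adj.reachable ?_
      rcases h with h | h
      · exact h.1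
      · exact absurd (one w a ha b hb h.2.1 h.2.2) h.1
    have tchG : ∀ w w', w ≠ w' → w ≠ w0 → w ≠ w1 → w ≠ w2 → Tch G (φ w) (φ w') := by
      intro w w' hne e0 e1 e2
      obtain ⟨x, hx, y, hy, h⟩ := hM.2.2 w w' hne
      rcases h with h | h
      · exact ⟨x, hx, y, hy, h.1⟩
      · exact absurd h.2.1 (Set.disjoint_left.1 hXS (noS w e0 e1 e2 hx))
    obtain ⟨i, hi⟩ : ∃ i : V → Fin 5, i = fun x => if x = s then w0 else if x = t then w1 else w2 :=
      ⟨_, rfl⟩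
    have is : i s = w0 := by rw [hi]; simp
    have it : i t = w1 := by rw [hi]; simp [hst.symm]
    have iu : i u = w2 := by rw [hi]; simp [hsu.symm, htu.symm]
    have hcase : ∀ x ∈ S, x = s ∨ x = t ∨ x = u := by
      intro x hx
      rw [hS] at hx
      simpa using hx
    have mem : ∀ x ∈ S, x ∈ φ (i x) := by
      intro x hx
      rcases hcase x hx with rfl | rfl | rfl
      · rw [is]; exact h0
      · rw [it]; exact h1
      · rw [iu]; exact h2
    have ine : ∀ x ∈ S, w3 ≠ i x ∧ w4 ≠ i x := by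
      intro x hx
      rcases hcase x hx with rfl | rfl | rfl
      · rw [is]; exact ⟨h30, h40⟩
      · rw [it]; exact ⟨h31, h41⟩
      · rw [iu]; exact ⟨h32, h42⟩
    refine ⟨fun x => φ (i x), φ w3, φ w4, ?_, ?_, noS w3 h30 h31 h32, noS w4 h40 h41 h42, conG _,
      conG _, hd _ _ h34, tchG _ _ h34 h30 h31 h32, ?_⟩
    · intro x hx
      refine ⟨mem x hx, fun a ha => ?_, conG _⟩
      rcases hin _ ha with h | h
      · exact Or.inl h
      · exact Or.inr (one _ a ha x (mem x hx) h hx)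
    · intro x hx y hy hxy
      refine hd _ _ fun he => hxy ?_
      have := mem y hy
      rw [← he] at this
      exact one _ x (mem x hx) y this hx hy
    · intro x hx
      obtain ⟨e3, e4⟩ := ine x hx
      exact ⟨hd _ _ e3.symm, hd _ _ e4.symm, tchG _ _ e3 h30 h31 h32, tchG _ _ e4 h40 h41 h42⟩
  · exfalso
    obtain ⟨w0, w1, w2, -, -, -, a01, a02, a12⟩ := tri _ _ φ hn33 hM
    rcases w0 with w0 | w0 <;> rcases w1 with w1 | w1 <;> rcases w2 with w2 | w2 <;>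
      simp [completeBipartiteGraph] at a01 a02 a12

end Pool.Agent.Helper79.TS
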